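import Pool.Agent.H23.NVK.MTargets

/-!
# The smoothed sum with coprimality (row M_BK); adapted from helper63's row BK of `cna_modules`
-/

set_option autoImplicit false

open MeasureTheory Set Filter Topology

namespace Pool.Agent.H42.NVK

open Pool.Agent.H23.NVK

section

variable {α : Type} {N : α → ℕ} {ρ δ : ℝ}

lemma cv_comm (a b : (α →₀ ℕ) → ℝ) (n : α →₀ ℕ) : cv a b n = cv b a n := by
  classical
  unfold cv
  refine Finset.sum_nbij' Prod.swap Prod.swap ?_ ?_ ?_ ?_ ?_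
  · intro x hx
    rw [Finset.HasAntidiagonal.mem_antidiagonal] at hx ⊢
    rw [Prod.fst_swap, Prod.snd_swap, add_comm]
    exact hx
  · intro x hx
    rw [Finset.HasAntidiagonal.mem_antidiagonal] at hx ⊢
    rw [Prod.fst_swap, Prod.snd_swap, add_comm]
    exact hx
  · intro x _
    exact Prod.swap_swap x
  · intro x _
    exact Prod.swap_swap x
  · intro x _
    rw [Prod.fst_swap, Prod.snd_swap, mul_comm]

lemma pow_diff {u v : ℝ} (hu : 0 ≤ u) (huv : u ≤ v) (e : ℕ) :
    v ^ (e + 1) - u ^ (e + 1) ≤ (e + 1) * (v - u) * v ^ e := by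
  induction e with
  | zero => simp
  | succ e ih =>
    have hv : 0 ≤ v := hu.trans huv
    have h1 : u ^ (e + 1) ≤ v ^ (e + 1) := pow_le_pow_left₀ hu huv _
    have h2 : v ^ (e + 1 + 1) - u ^ (e + 1 + 1) =
        v * (v ^ (e + 1) - u ^ (e + 1)) + (v - u) * u ^ (e + 1) := by ring
    rw [h2]
    have h3 : v * (v ^ (e + 1) - u ^ (e + 1)) ≤ v * ((e + 1) * (v - u) * v ^ e) :=
      mul_le_mul_of_nonneg_left ih hv
    have h4 : (v - u) * u ^ (e + 1) ≤ (v - u) * v ^ (e + 1) :=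
      mul_le_mul_of_nonneg_left h1 (by linarith)
    have h5 : v * ((e + 1) * (v - u) * v ^ e) + (v - u) * v ^ (e + 1) =
        (((e + 1 : ℕ) : ℝ) + 1) * (v - u) * v ^ (e + 1) := by
      push_cast
      ring
    linarith

open Classical in
lemma phi_bound (hA : AxA N ρ δ) {y : ℝ} (hy : 1 ≤ y) (e : ℕ) (b : α →₀ ℕ) :
    |(if b ∈ FM N y then lg (e + 1) (y / nF N b) else 0) - lg (e + 1) y| ≤
      (e + 1) * Real.log (nF N b) * (1 + Real.log y) ^ e := by
  have hy0 : 0 < y := by linarith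
  have hL := Real.log_nonneg hy
  have hbR : (1 : ℝ) ≤ nF N b := by exact_mod_cast hA.one_le_nF b
  have hb0 : (0 : ℝ) < nF N b := by linarith
  have hlb := Real.log_nonneg hbR
  have hpow : Real.log y ^ e ≤ (1 + Real.log y) ^ e := pow_le_pow_left₀ hL (by linarith) _
  unfold lg
  split_ifs with h
  · have h3 : (nF N b : ℝ) ≤ y := hA.mem_FM.1 h
    have h4 : 1 ≤ y / nF N b := by rw [le_div_iff₀ hb0, one_mul]; exact h3
    have h5 := Real.log_nonneg h4
    have h6 : Real.log (y / nF N b) = Real.log y - Real.log (nF N b) :=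
      Real.log_div hy0.ne' hb0.ne'
    have h7 := pow_diff h5 (by linarith : Real.log (y / nF N b) ≤ Real.log y) e
    have h8 : Real.log (y / nF N b) ^ (e + 1) ≤ Real.log y ^ (e + 1) :=
      pow_le_pow_left₀ h5 (by linarith) _
    rw [abs_sub_comm, abs_of_nonneg (by linarith)]
    refine h7.trans ?_
    rw [show Real.log y - Real.log (y / nF N b) = Real.log (nF N b) by linarith]
    gcongr
  · have h3 : y ≤ nF N b := by
      by_contra hcon
      push Not at hcon
      exact h (hA.mem_FM.2 hcon.le)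
    have h4 : Real.log y ≤ Real.log (nF N b) := Real.log_le_log hy0 h3
    rw [zero_sub, abs_neg, abs_of_nonneg (by positivity), pow_succ]
    calc Real.log y ^ e * Real.log y ≤ (1 + Real.log y) ^ e * Real.log (nF N b) := by gcongr
      _ = 1 * Real.log (nF N b) * (1 + Real.log y) ^ e := by ring
      _ ≤ _ := by
          gcongr
          have : (0 : ℝ) ≤ e := Nat.cast_nonneg e
          linarith

lemma log_div_le {b : ℕ} (hb : 1 ≤ b) :
    Real.log b / b ≤ 4 * (b : ℝ) ^ (-(3 / 4) : ℝ) := by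
  have hbR : (1 : ℝ) ≤ b := by exact_mod_cast hb
  have hb0 : (0 : ℝ) < b := by linarith
  have h1 := Real.log_le_rpow_div hb0.le (show (0 : ℝ) < 1 / 4 by norm_num)
  rw [div_le_iff₀ hb0]
  have h2 : 4 * (b : ℝ) ^ (-(3 / 4) : ℝ) * b = (b : ℝ) ^ (1 / 4 : ℝ) / (1 / 4) := by
    have h3 : (b : ℝ) ^ (-(3 / 4) : ℝ) * b = (b : ℝ) ^ (1 / 4 : ℝ) := by
      nth_rewrite 2 [← Real.rpow_one (b : ℝ)]
      rw [← Real.rpow_add hb0]
      norm_num
    rw [mul_assoc, h3]
    ring
  rw [h2]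
  exact h1

lemma inv_le_rpow {b : ℕ} (hb : 1 ≤ b) : 1 / (b : ℝ) ≤ (b : ℝ) ^ (-(3 / 4) : ℝ) := by
  have hbR : (1 : ℝ) ≤ b := by exact_mod_cast hb
  rw [one_div, ← Real.rpow_neg_one]
  exact Real.rpow_le_rpow_of_exponent_le hbR (by norm_num)

lemma Lam_add' (a : (α →₀ ℕ) → ℝ) (c : ℝ) (f g : ℝ → ℝ) (y : ℝ) :
    Lam N a (fun x => c * f x + g x) y = c * Lam N a f y + Lam N a g y := by
  unfold Lam
  rw [Finset.mul_sum, ← Finset.sum_add_distrib]
  exact Finset.sum_congr rfl fun n _ => by ring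

theorem conv_asymp (hA : AxA N ρ δ) {a h : (α →₀ ℕ) → ℝ} {K e : ℕ} {A C : ℝ} (hC : 0 ≤ C)
    (ha : ∀ y : ℝ, 1 ≤ y → |Lam N a (lg K) y - A * lg (e + 1) y| ≤ C * (1 + Real.log y) ^ e)
    (hs : Summable (fun b : α →₀ ℕ => |h b| * (nF N b : ℝ) ^ (-(3 / 4) : ℝ))) {y : ℝ}
    (hy : 1 ≤ y) :
    |Lam N (cv a h) (lg K) y - (∑' b : α →₀ ℕ, h b / nF N b) * (A * lg (e + 1) y)| ≤
      (C + |A| * (4 * (e + 1))) * (∑' b : α →₀ ℕ, |h b| * (nF N b : ℝ) ^ (-(3 / 4) : ℝ)) *
        (1 + Real.log y) ^ e := by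
  classical
  have hy0 : 0 < y := by linarith
  have hL := Real.log_nonneg hy
  obtain ⟨S, hS⟩ : ∃ S : ℝ, S = ∑' b : α →₀ ℕ, |h b| * (nF N b : ℝ) ^ (-(3 / 4) : ℝ) := ⟨_, rfl⟩
  have hP : 0 ≤ (1 + Real.log y) ^ e := by positivity
  -- summability of `h b / b`
  have hsum : Summable (fun b : α →₀ ℕ => h b / nF N b) := by
    refine Summable.of_norm_bounded hs fun b => ?_
    have hb0 : (0 : ℝ) < nF N b := hA.nF_pos b
    rw [Real.norm_eq_abs, abs_div, abs_of_pos hb0, div_eq_mul_one_div]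
    exact mul_le_mul_of_nonneg_left (inv_le_rpow (hA.one_le_nF b)) (abs_nonneg _)
  -- first part
  obtain ⟨ε, hε⟩ : ∃ ε : ℝ → ℝ, ε = fun x => Lam N a (lg K) x - A * lg (e + 1) x := ⟨_, rfl⟩
  have h1 : Lam N (cv a h) (lg K) y = A * Lam N h (lg (e + 1)) y + Lam N h ε y := by
    have h2 : Lam N (cv a h) (lg K) y = Lam N (cv h a) (lg K) y := by
      unfold Lam
      exact Finset.sum_congr rfl fun n _ => by rw [cv_comm]
    rw [h2, ← hA.Lam_Lam]
    have h3 : Lam N a (lg K) = fun x => A * lg (e + 1) x + ε x := by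
      funext x
      rw [hε]
      ring
    rw [h3, Lam_add']
  -- the error term
  have h2 : |Lam N h ε y| ≤ C * S * (1 + Real.log y) ^ e := by
    unfold Lam
    calc |∑ n ∈ FM N y, h n / nF N n * ε (y / nF N n)|
        ≤ ∑ n ∈ FM N y, |h n / nF N n * ε (y / nF N n)| := Finset.abs_sum_le_sum_abs _ _
      _ ≤ ∑ n ∈ FM N y, C * (1 + Real.log y) ^ e *
          (|h n| * (nF N n : ℝ) ^ (-(3 / 4) : ℝ)) := by
          refine Finset.sum_le_sum fun n hn => ?_
          have hn0 : (0 : ℝ) < nF N n := hA.nF_pos n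
          have hn1 := hA.one_le_nF n
          have hn1' : (1 : ℝ) ≤ nF N n := by exact_mod_cast hn1
          have h3 : (nF N n : ℝ) ≤ y := hA.mem_FM.1 hn
          have h4 : 1 ≤ y / nF N n := by rw [le_div_iff₀ hn0, one_mul]; exact h3
          have h5 : y / nF N n ≤ y := div_le_self hy0.le hn1'
          have h6 : |ε (y / nF N n)| ≤ C * (1 + Real.log y) ^ e := by
            rw [hε]
            refine (ha _ h4).trans ?_
            have h7 := Real.log_nonneg h4
            have h8 := Real.log_le_log (by linarith) h5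
            gcongr
          rw [abs_mul, abs_div, abs_of_pos hn0, mul_comm]
          have h9 : |h n| / nF N n ≤ |h n| * (nF N n : ℝ) ^ (-(3 / 4) : ℝ) := by
            rw [div_eq_mul_one_div]
            exact mul_le_mul_of_nonneg_left (inv_le_rpow hn1) (abs_nonneg _)
          exact mul_le_mul h6 h9 (by positivity) (by positivity)
      _ = C * (1 + Real.log y) ^ e * ∑ n ∈ FM N y,
          (|h n| * (nF N n : ℝ) ^ (-(3 / 4) : ℝ)) := by rw [Finset.mul_sum]
      _ ≤ C * (1 + Real.log y) ^ e * S := by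
          rw [hS]
          refine mul_le_mul_of_nonneg_left ?_ (by positivity)
          exact hs.sum_le_tsum _ fun b _ => by positivity
      _ = _ := by ring
  -- the main term
  have h3 : |Lam N h (lg (e + 1)) y - (∑' b : α →₀ ℕ, h b / nF N b) * lg (e + 1) y| ≤
      4 * (e + 1) * (1 + Real.log y) ^ e * S := by
    have h4 : Lam N h (lg (e + 1)) y = ∑' b : α →₀ ℕ,
        h b / nF N b * (if b ∈ FM N y then lg (e + 1) (y / nF N b) else 0) := by
      rw [tsum_eq_sum (s := FM N y)]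
      · unfold Lam
        exact Finset.sum_congr rfl fun b hb => by rw [if_pos hb]
      · intro b hb
        rw [if_neg hb, mul_zero]
    have hs1 : Summable (fun b : α →₀ ℕ =>
        h b / nF N b * (if b ∈ FM N y then lg (e + 1) (y / nF N b) else 0)) := by
      refine summable_of_ne_finset_zero (s := FM N y) fun b hb => ?_
      rw [if_neg hb, mul_zero]
    have h5 : Lam N h (lg (e + 1)) y - (∑' b : α →₀ ℕ, h b / nF N b) * lg (e + 1) y =
        ∑' b : α →₀ ℕ, h b / nF N b *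
          ((if b ∈ FM N y then lg (e + 1) (y / nF N b) else 0) - lg (e + 1) y) := by
      rw [h4, ← tsum_mul_right, ← hs1.tsum_sub (hsum.mul_right _)]
      exact tsum_congr fun b => by ring
    rw [h5, ← Real.norm_eq_abs]
    have hg : HasSum (fun b : α →₀ ℕ => 4 * (e + 1) * (1 + Real.log y) ^ e *
        (|h b| * (nF N b : ℝ) ^ (-(3 / 4) : ℝ))) (4 * (e + 1) * (1 + Real.log y) ^ e * S) := by
      rw [hS]
      exact hs.hasSum.mul_left _
    refine tsum_of_norm_bounded hg fun b => ?_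
    have hb0 : (0 : ℝ) < nF N b := hA.nF_pos b
    rw [Real.norm_eq_abs, abs_mul, abs_div, abs_of_pos hb0]
    calc |h b| / nF N b * |(if b ∈ FM N y then lg (e + 1) (y / nF N b) else 0) -
          lg (e + 1) y|
        ≤ |h b| / nF N b * ((e + 1) * Real.log (nF N b) * (1 + Real.log y) ^ e) :=
          mul_le_mul_of_nonneg_left (phi_bound hA hy e b) (by positivity)
      _ = (e + 1) * (1 + Real.log y) ^ e * |h b| * (Real.log (nF N b) / nF N b) := by ring
      _ ≤ (e + 1) * (1 + Real.log y) ^ e * |h b| * (4 * (nF N b : ℝ) ^ (-(3 / 4) : ℝ)) :=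
          mul_le_mul_of_nonneg_left (log_div_le (hA.one_le_nF b)) (by positivity)
      _ = _ := by ring
  have h6 : Lam N (cv a h) (lg K) y - (∑' b : α →₀ ℕ, h b / nF N b) * (A * lg (e + 1) y) =
      A * (Lam N h (lg (e + 1)) y - (∑' b : α →₀ ℕ, h b / nF N b) * lg (e + 1) y) +
        Lam N h ε y := by
    rw [h1]
    ring
  rw [h6, ← hS]
  calc |A * (Lam N h (lg (e + 1)) y - (∑' b : α →₀ ℕ, h b / nF N b) * lg (e + 1) y) +
        Lam N h ε y|
      ≤ |A * (Lam N h (lg (e + 1)) y - (∑' b : α →₀ ℕ, h b / nF N b) * lg (e + 1) y)| +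
        |Lam N h ε y| := abs_add_le _ _
    _ = |A| * |Lam N h (lg (e + 1)) y - (∑' b : α →₀ ℕ, h b / nF N b) * lg (e + 1) y| +
        |Lam N h ε y| := by rw [abs_mul]
    _ ≤ |A| * (4 * (e + 1) * (1 + Real.log y) ^ e * S) + C * S * (1 + Real.log y) ^ e := by
        gcongr
    _ = _ := by ring

open Classical in
/-- `u2` on the monoid -/
lemma u2_eq (q : Finset α) (n : α →₀ ℕ) :
    u2 q n = if ∀ p, n p ≤ 1 then (if Disjoint n.support q then (-2) ^ n.support.card else 0)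
      else 0 := by
  unfold u2 Finsupp.prod
  split_ifs with h1 h2
  · rw [← Finset.prod_const]
    refine Finset.prod_congr rfl fun p hp => ?_
    have h3 : n p = 1 := by
      have := h1 p
      have := Finsupp.mem_support_iff.1 hp
      omega
    exact if_pos ⟨h3, fun hq => (Finset.disjoint_left.1 h2 hp) hq⟩
  · rw [Finset.not_disjoint_iff] at h2
    obtain ⟨p, hp, hq⟩ := h2
    exact Finset.prod_eq_zero hp (if_neg fun h => h.2 hq)
  · push Not at h1
    obtain ⟨p, hp⟩ := h1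
    exact Finset.prod_eq_zero (i := p) (Finsupp.mem_support_iff.2 (by omega))
      (if_neg fun h => by omega)

lemma Bk_eq (hA : AxA N ρ δ) (k : ℕ) (q : Finset α) (y : ℝ) :
    Bk N k q y = Lam N (u2 q) (lg k) y := by
  classical
  unfold Bk Lam
  rw [Finset.sum_filter, hA.sum_SM y]
  refine Finset.sum_congr (by congr) fun n _ => ?_
  rw [u2_eq]
  split_ifs with h1 h2
  · have h3 : nS N n.support = nF N n := by rw [← nF_ind, ← eq_ind h1]
    rw [h3]
    rfl
  · rw [zero_div, zero_mul]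
  · rw [zero_div, zero_mul]

end

theorem pf_BK (hCVI : T_CVI) (hMU2 : T_MU2) (hHQ : T_HQ) : T_BK := by
  intro α N ρ δ hA k hk
  obtain ⟨e, rfl⟩ : ∃ e, k = e + 3 := ⟨k - 3, by omega⟩
  obtain ⟨C1, hC1, h1⟩ := hMU2 α N ρ δ hA (e + 3) hk
  obtain ⟨C2, hC2, h2⟩ := hHQ α N ρ δ hA
  obtain ⟨A, hAe⟩ : ∃ A : ℝ, A = ((e + 3 : ℕ) : ℝ) * (((e + 3 : ℕ) : ℝ) - 1) / ρ ^ 2 := ⟨_, rfl⟩
  have h3 : ∀ y : ℝ, 1 ≤ y → |Lam N m2 (lg (e + 3)) y - A * lg (e + 1) y| ≤
      C1 * (1 + Real.log y) ^ e := by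
    intro y hy
    have := h1 y hy
    rw [hAe]
    exact this
  refine ⟨(C1 + |A| * (4 * (e + 1))) * C2, by positivity, fun q y hAd hy => ?_⟩
  obtain ⟨-, -, -, hs, hsb, hsum⟩ := h2 q hAd
  have hmain := conv_asymp hA hC1.le h3 hs hy
  have hB : Bk N (e + 3) q y = Lam N (cv m2 (hq q)) (lg (e + 3)) y := by
    rw [Bk_eq hA]
    have : u2 q = cv m2 (hq q) := funext fun n => ((hCVI α).2.2.1 q n).symm
    rw [this]
  rw [hsum] at hmain
  have h4 : Hq N q * (((e + 3 : ℕ) : ℝ) * (((e + 3 : ℕ) : ℝ) - 1) / ρ ^ 2) *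
      Real.log y ^ (e + 3 - 2) = Hq N q * (A * lg (e + 1) y) := by
    rw [hAe]
    unfold lg
    have : e + 3 - 2 = e + 1 := by omega
    rw [this]
    ring
  rw [hB, h4]
  refine hmain.trans ?_
  have hL := Real.log_nonneg hy
  have h7 : e + 3 - 3 = e := by omega
  rw [h7, mul_assoc (C1 + |A| * (4 * (e + 1))) C2 (Ef N q)]
  gcongr

end Pool.Agent.H42.NVK
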