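import Pool.Agent.H89.NV.TU2

/-!
# Row U_BMD: the middle coefficients are congruent modulo `2 f`
-/

set_option autoImplicit false

open MeasureTheory Set Filter NumberField NumberField.InfinitePlace
open Pool.Agent.H65.CM4 Pool.Agent.H61.NVK Pool.Agent.H89.NV
open scoped Real

namespace Pool.Agent.H42.NVK

variable (k : Type) [Field k] [NumberField k] [IsTotallyReal k]

omit [IsTotallyReal k] in
/-- the root of a monic quadratic equation is integral -/
theorem bmd_int (b b' j t u v : 𝓞 k) (ht : t ≠ 0) (h1 : b * j = t * u)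
    (h2 : (b ^ 2 - b' ^ 2) * j ^ 2 = 4 * t ^ 2 * v) : ∃ w : 𝓞 k, (b - b') * j = 2 * t * w := by
  have htk : (algebraMap (𝓞 k) k t) ≠ 0 := by
    intro h
    apply ht
    exact (FaithfulSMul.algebraMap_injective (𝓞 k) k) (by rw [h, map_zero])
  set x : k := (algebraMap (𝓞 k) k (b - b')) * (algebraMap (𝓞 k) k j) /
    (2 * algebraMap (𝓞 k) k t) with hx
  have e1 : (algebraMap (𝓞 k) k b) * (algebraMap (𝓞 k) k j) =
      (algebraMap (𝓞 k) k t) * (algebraMap (𝓞 k) k u) := by
    rw [← map_mul, ← map_mul, h1]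
  have e2 : ((algebraMap (𝓞 k) k b) ^ 2 - (algebraMap (𝓞 k) k b') ^ 2) *
      (algebraMap (𝓞 k) k j) ^ 2 = 4 * (algebraMap (𝓞 k) k t) ^ 2 * (algebraMap (𝓞 k) k v) := by
    have := congrArg (algebraMap (𝓞 k) k) h2
    rw [map_mul, map_mul, map_mul, map_sub, map_pow, map_pow, map_pow, map_pow, map_ofNat] at this
    exact this
  have hint : IsIntegral (𝓞 k) x := by
    refine ⟨Polynomial.X ^ 2 + (Polynomial.C (-u) * Polynomial.X + Polynomial.C v), ?_, ?_⟩
    · apply Polynomial.monic_X_pow_add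
      refine lt_of_le_of_lt Polynomial.degree_linear_le ?_
      norm_num
    · rw [Polynomial.eval₂_add, Polynomial.eval₂_add, Polynomial.eval₂_mul, Polynomial.eval₂_pow,
        Polynomial.eval₂_X, Polynomial.eval₂_C, Polynomial.eval₂_C, map_neg, hx, map_sub]
      have hu : (algebraMap (𝓞 k) k u) = (algebraMap (𝓞 k) k b) * (algebraMap (𝓞 k) k j) /
          (algebraMap (𝓞 k) k t) := by
        rw [e1]; field_simp
      have hv : (algebraMap (𝓞 k) k v) = ((algebraMap (𝓞 k) k b) ^ 2 -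
          (algebraMap (𝓞 k) k b') ^ 2) * (algebraMap (𝓞 k) k j) ^ 2 /
          (4 * (algebraMap (𝓞 k) k t) ^ 2) := by
        rw [e2]; field_simp
      rw [hu, hv]
      field_simp
      ring
  obtain ⟨w, hw⟩ := (IsIntegrallyClosed.isIntegral_iff (R := 𝓞 k) (K := k)).mp hint
  refine ⟨w, ?_⟩
  apply FaithfulSMul.algebraMap_injective (𝓞 k) k
  rw [map_mul, map_mul, map_mul, hw, hx, map_ofNat]
  field_simp

set_option linter.unusedSectionVars false in
/-- (BMD) the middle coefficients are congruent modulo `2 f`. -/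
theorem pf_BMD : T_BMD k := by
  intro f D b b' hf hb hb' h1 h2
  obtain ⟨t, htf, ht⟩ := Submodule.exists_mem_ne_zero_of_ne_bot hf
  obtain ⟨J, hJ⟩ := Ideal.dvd_iff_le.mpr ((Ideal.span_singleton_le_iff_mem f).mpr htf)
  have hJ0 : J ≠ ⊥ := by
    rintro rfl
    rw [Ideal.mul_bot, Ideal.span_singleton_eq_bot] at hJ
    exact ht hJ
  have hd : b ^ 2 - b' ^ 2 ∈ ni k 4 * f ^ 2 := by
    have := Ideal.sub_mem _ h1 h2
    rwa [add_sub_add_right_eq_sub] at this
  have key : Ideal.span {b - b'} * J ≤ (ni k 2 * f) * J := by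
    rw [Ideal.span_singleton_mul_le_iff]
    intro j hj
    have m1 : b * j ∈ Ideal.span {t} := by
      rw [hJ]; exact Ideal.mul_mem_mul hb hj
    obtain ⟨u, hu⟩ := Ideal.mem_span_singleton'.mp m1
    have m2 : (b ^ 2 - b' ^ 2) * j ^ 2 ∈ Ideal.span {4 * t ^ 2} := by
      have := Ideal.mul_mem_mul hd (Ideal.pow_mem_pow hj 2)
      rw [mul_assoc, ← mul_pow, ← hJ, Ideal.span_singleton_pow, ni,
        Ideal.span_singleton_mul_span_singleton] at this
      simpa using this
    obtain ⟨v, hv⟩ := Ideal.mem_span_singleton'.mp m2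
    obtain ⟨w, hw⟩ := bmd_int k b b' j t u v ht (by rw [← hu]; ring) (by rw [← hv]; ring)
    rw [mul_assoc, ← hJ, ni, Ideal.span_singleton_mul_span_singleton, hw]
    refine Ideal.mem_span_singleton'.mpr ⟨w, ?_⟩
    push_cast
    ring
  have h3 : (ni k 2 * f) * J ∣ Ideal.span {b - b'} * J := Ideal.dvd_iff_le.mpr key
  have h4 : ni k 2 * f ∣ Ideal.span {b - b'} := (mul_dvd_mul_iff_right hJ0).mp h3
  exact (Ideal.span_singleton_le_iff_mem _).mp (Ideal.dvd_iff_le.mp h4)

end Pool.Agent.H42.NVK
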