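import Pool.Agent.H91.NV.LTargets

/-!
# Row L_LOC: the local means at a small prime
-/

set_option autoImplicit false

open MeasureTheory Set Filter NumberField NumberField.InfinitePlace
open Pool.Agent.H65.CM4 Pool.Agent.H61.NVK Pool.Agent.H89.NV Pool.Agent.H91.NV
open scoped Real

namespace Pool.Agent.H42.NVK

section

variable {k : Type} [Field k] [NumberField k]

omit [NumberField k] in
/-- the three cases of the valuation -/
theorem loc_vi (P : PrI k) (I : Ideal (𝓞 k)) :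
    (vi P I = 0 ∧ ¬ P.1 ∣ I ∧ ¬ P.1 ^ 2 ∣ I) ∨ (vi P I = 1 ∧ P.1 ∣ I ∧ ¬ P.1 ^ 2 ∣ I) ∨
      (vi P I = 2 ∧ P.1 ∣ I ∧ P.1 ^ 2 ∣ I) := by
  classical
  by_cases h2 : P.1 ^ 2 ∣ I
  · right; right
    exact ⟨by unfold vi; rw [if_pos h2], (dvd_pow_self P.1 two_ne_zero).trans h2, h2⟩
  · by_cases h1 : P.1 ∣ I
    · right; left
      exact ⟨by unfold vi; rw [if_neg h2, if_pos h1], h1, h2⟩
    · left
      exact ⟨by unfold vi; rw [if_neg h2, if_neg h1], h1, h2⟩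

open Classical in
/-- the function of the numbers of roots -/
noncomputable def loc_P (P : PrI k) (e A : Ideal (𝓞 k)) (t : ℕ) : ℕ → ℕ → ℕ → ℕ → ℝ :=
  fun y₁ y₂ y₃ y₄ =>
    if t = 0 then (1 + ((y₁ : ℝ) - 1) / np P) ^ 2 else
      if t = 1 then -(1 + ((y₁ : ℝ) - 1) / np P) *
        ((if P.1 ∣ A then 1 else 0) + (if P.1 ∣ e then (y₂ : ℝ) else 0)) else
        (if P.1 ^ 2 ∣ A then 1 else 0) + (if P.1 ∣ A ∧ P.1 ∣ e then (y₄ : ℝ) else 0) +
          (if P.1 ∣ e then (y₂ : ℝ) else 0) + (if P.1 ^ 2 ∣ e then (y₃ : ℝ) else 0)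

open Classical in
/-- the local weight is a function of the numbers of roots -/
theorem loc_wl (f e A : Ideal (𝓞 k)) (P : PrI k) (t : ℕ) (b c : 𝓞 k) :
    wl f P t e A b c = if ¬ Dis (P.1 * f) (4 * c - b ^ 2) then
      loc_P P e A t (nr f P.1 ⊤ b c) (nr f P.1 A b c) (nr f (P.1 ^ 2) A b c)
        (if P.1 ∣ A then nr f P.1 (dvi A P.1) b c else 0) else 0 := by
  unfold wl
  by_cases hD : Dis (P.1 * f) (4 * c - b ^ 2)
  · rw [if_neg (not_not.mpr hD), if_neg (not_not.mpr hD)]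
  · rw [if_pos hD, if_pos hD]
    unfold loc_P chi N1 N2
    by_cases h1 : P.1 ∣ A <;> by_cases h2 : P.1 ∣ e <;> by_cases h3 : P.1 ^ 2 ∣ A <;>
      by_cases h4 : P.1 ^ 2 ∣ e <;> by_cases h5 : t = 0 <;> by_cases h6 : t = 1 <;>
      simp only [h1, h2, h3, h4, h5, h6, if_true, if_false, and_self, and_true, and_false,
        Nat.cast_add, Nat.cast_one, Nat.cast_zero]

end

variable (k : Type) [Field k] [NumberField k] [IsTotallyReal k]

/-- (LOC) the local means. -/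
theorem pf_LOC (hLT : T_LT k) : T_LOC k := by
  classical
  intro f e A P hf he hA
  refine ⟨?_, ?_, ?_⟩
  · intro t ht
    obtain ⟨g0, g1, g2⟩ := hLT f A P (loc_P P e A t) (wl f P t e A) hf hA
      (fun b c => loc_wl f e A P t b c)
    rcases loc_vi P A with ⟨a1, a2, a3⟩ | ⟨a1, a2, a3⟩ | ⟨a1, a2, a3⟩
    · rw [g0 a1, a1]
      rcases loc_vi P e with ⟨b1, b2, b3⟩ | ⟨b1, b2, b3⟩ | ⟨b1, b2, b3⟩ <;> rw [b1] <;>
        interval_cases t <;> simp [loc_P, gl, a2, a3, b2, b3] <;>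
          first | ring1 | (left; ring1)
    · rw [g1 a1, a1]
      rcases loc_vi P e with ⟨b1, b2, b3⟩ | ⟨b1, b2, b3⟩ | ⟨b1, b2, b3⟩ <;> rw [b1] <;>
        interval_cases t <;> simp [loc_P, gl, a2, a3, b2, b3] <;>
          first | ring1 | (left; ring1)
    · rw [g2 a1, a1]
      rcases loc_vi P e with ⟨b1, b2, b3⟩ | ⟨b1, b2, b3⟩ | ⟨b1, b2, b3⟩ <;> rw [b1] <;>
        interval_cases t <;> simp [loc_P, gl, a2, a3, b2, b3] <;>
          first | ring1 | (left; ring1)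
  · intro h0
    obtain ⟨g0, g1, g2⟩ := hLT f A P (fun y _ _ _ => 1 + ((y : ℝ) - 1) / np P) (wf f P 0) hf hA
      (by intro b c; simp [wf, chi])
    rw [g0 h0]
    simp
    ring
  · intro h1
    obtain ⟨g0, g1, g2⟩ := hLT f A P (fun _ _ _ _ => -1) (wf f P 1) hf hA
      (by intro b c; simp [wf])
    rw [g1 h1]
    ring

end Pool.Agent.H42.NVK
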