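import Pool.Agent.H91.NV.LTargets

/-!
# Row L_LT: the local table
-/

set_option autoImplicit false

open MeasureTheory Set Filter NumberField NumberField.InfinitePlace
open Pool.Agent.H65.CM4 Pool.Agent.H61.NVK Pool.Agent.H89.NV Pool.Agent.H91.NV
open scoped Real

namespace Pool.Agent.H42.NVK

section

variable {k : Type} [Field k] [NumberField k]

/-- the ideal of an element of `M` which is not in `P M` -/
theorem lt_spn (P : PrI k) (M : Ideal (𝓞 k)) (x : 𝓞 k) (hx : x ∈ M) (hx' : x ∉ P.1 * M) :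
    ∃ I : Ideal (𝓞 k), Ideal.span {x} = M * I ∧ ¬ P.1 ∣ I := by
  obtain ⟨I, hI⟩ := Ideal.dvd_iff_le.mpr ((Ideal.span_singleton_le_iff_mem M).mpr hx)
  refine ⟨I, hI, ?_⟩
  rintro ⟨J, rfl⟩
  apply hx'
  have h : x ∈ Ideal.span {x} := Ideal.mem_span_singleton_self x
  rw [hI] at h
  have h2 : M * (P.1 * J) ≤ P.1 * M := by
    rw [mul_left_comm]
    exact Ideal.mul_mono_right Ideal.mul_le_left
  exact h2 h

/-- an element of `M` which is not in `P M` -/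
theorem lt_ex (P : PrI k) (M : Ideal (𝓞 k)) (hM : M ≠ ⊥) : ∃ x ∈ M, x ∉ P.1 * M := by
  by_contra h
  push Not at h
  have h1 : P.1 * M = ⊤ * M := by
    rw [Ideal.top_mul]
    exact le_antisymm Ideal.mul_le_right h
  have h2 : P.1 = ⊤ := mul_right_cancel₀ (b := M) hM h1
  exact P.2.1.ne_top h2

theorem lt_prime (P : PrI k) : Prime P.1 := Ideal.prime_of_isPrime P.2.2 P.2.1

theorem lt_mem_dvd (M : Ideal (𝓞 k)) (x : 𝓞 k) : x ∈ M ↔ M ∣ Ideal.span {x} := by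
  rw [Ideal.dvd_iff_le, Ideal.span_singleton_le_iff_mem]

/-- the product `α φ ^ 2` -/
theorem lt_prod (P : PrI k) (f A : Ideal (𝓞 k)) (hf : f ≠ ⊥) (hA : A ≠ ⊥) (φ α : 𝓞 k)
    (hφ : φ ∈ f) (hφ' : φ ∉ P.1 * f) (hα : α ∈ A) (hα' : α ∉ P.1 * A) :
    α * φ ^ 2 ∈ A * f ^ 2 ∧ α * φ ^ 2 ∉ P.1 * (A * f ^ 2) := by
  refine ⟨Ideal.mul_mem_mul hα (Ideal.pow_mem_pow hφ 2), ?_⟩
  obtain ⟨I, hI, hI'⟩ := lt_spn P A α hα hα'
  obtain ⟨J, hJ, hJ'⟩ := lt_spn P f φ hφ hφ'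
  rw [lt_mem_dvd]
  have e : Ideal.span {α * φ ^ 2} = (A * f ^ 2) * (I * J ^ 2) := by
    rw [← Ideal.span_singleton_mul_span_singleton, ← Ideal.span_singleton_pow, hI, hJ]
    ring
  rw [e, mul_comm P.1]
  intro h
  have h1 : A * f ^ 2 ≠ 0 := mul_ne_zero hA (pow_ne_zero _ hf)
  have h2 : P.1 ∣ I * J ^ 2 := (mul_dvd_mul_iff_left h1).mp h
  rcases (lt_prime P).dvd_or_dvd h2 with h3 | h3
  · exact hI' h3
  · exact hJ' ((lt_prime P).dvd_of_dvd_pow h3)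

end

variable (k : Type) [Field k] [NumberField k] [IsTotallyReal k]

open Classical in
/-- (LT) the local table. -/
theorem pf_LT (hIDL : T_IDL k) (hGOD : T_GOD k) (hNRI : T_NRI k) (hMIA : T_MIA k)
    (hMIS : T_MIS k) (hNRM : T_NRM k) (hLTO : T_LTO k) : T_LT k := by
  intro f A P Φ F hf hA hF
  have hP := lt_prime P
  have hP0 : P.1 ≠ ⊥ := P.2.2
  have hP2 : P.1 ^ 2 ≠ ⊥ := pow_ne_zero _ hP0
  have hAf : A * f ^ 2 ≠ ⊥ := mul_ne_zero hA (pow_ne_zero _ hf)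
  have hle : A * f ^ 2 ≤ f ^ 2 := Ideal.mul_le_right
  have hPP : P.1 ^ 2 ≤ P.1 := Ideal.pow_le_self two_ne_zero
  obtain ⟨φ, hφ, hφ'⟩ := lt_ex P f hf
  obtain ⟨α, hα, hα'⟩ := lt_ex P A hA
  obtain ⟨hαφ, hαφ'⟩ := lt_prod P f A hf hA φ α hφ hφ' hα hα'
  -- periodicity in b
  have perB : ∀ b ∈ f, ∀ c ∈ A * f ^ 2, ∀ x ∈ P.1 ^ 2 * f, F (b + x) c = F b c := by
    intro b hb c hc x hx
    have hx1 : x ∈ P.1 * f := Ideal.mul_mono_left hPP hx
    have hxf : x ∈ f := Ideal.mul_le_right hx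
    have e1 := (hNRI f P.1 ⊤ b c hf hP0).2.2.2.1 x hx1
    have e2 := (hNRI f P.1 A b c hf hP0).2.2.2.1 x hx1
    have e3 := (hNRI f (P.1 ^ 2) A b c hf hP2).2.2.2.1 x hx
    have e4 := (hNRI f P.1 (dvi A P.1) b c hf hP0).2.2.2.1 x hx1
    have eD : Dis (P.1 * f) (4 * c - (b + x) ^ 2) ↔ Dis (P.1 * f) (4 * c - b ^ 2) := by
      rw [(hGOD f P (b + x) c hf (add_mem hb hxf) (hle hc)).2, (hGOD f P b c hf hb (hle hc)).2]
      apply exists_congr
      intro s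
      apply and_congr_right
      intro hs
      have h1 : b + x + 2 * s = b + 2 * s + x := by ring
      have h2 : s ^ 2 + (b + x) * s + c = s ^ 2 + b * s + c + x * s := by ring
      have h3 : x * s ∈ P.1 ^ 2 * f ^ 2 := by
        have := Ideal.mul_mem_mul hx hs
        rwa [mul_assoc, ← pow_two] at this
      rw [h1, h2, Ideal.add_mem_iff_left _ hx1, Ideal.add_mem_iff_left _ h3]
    rw [hF, hF, e1, e2, e3, e4]
    simp only [eD]
  have perC : ∀ b ∈ f, ∀ c ∈ A * f ^ 2, ∀ x ∈ P.1 ^ 2 * (A * f ^ 2), F b (c + x) = F b c := by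
    intro b hb c hc x hx
    have hx1 : x ∈ P.1 * (A * f ^ 2) := Ideal.mul_mono_left hPP hx
    have hxf : x ∈ A * f ^ 2 := Ideal.mul_le_right hx
    have e1 := (hNRI f P.1 ⊤ b c hf hP0).2.2.2.2 x
      (by rw [Ideal.top_mul]; exact Ideal.mul_mono_right hle hx1)
    have e2 := (hNRI f P.1 A b c hf hP0).2.2.2.2 x hx1
    have e3 := (hNRI f (P.1 ^ 2) A b c hf hP2).2.2.2.2 x hx
    have e4 : (if P.1 ∣ A then nr f P.1 (dvi A P.1) b (c + x) else 0) =
        (if P.1 ∣ A then nr f P.1 (dvi A P.1) b c else 0) := by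
      by_cases h : P.1 ∣ A
      · rw [if_pos h, if_pos h]
        apply (hNRI f P.1 (dvi A P.1) b c hf hP0).2.2.2.2 x
        rw [← mul_assoc, (hIDL.2.1 A P.1 hA h).1]
        exact hxf
      · rw [if_neg h, if_neg h]
    have eD : Dis (P.1 * f) (4 * (c + x) - b ^ 2) ↔ Dis (P.1 * f) (4 * c - b ^ 2) := by
      rw [(hGOD f P b (c + x) hf hb (hle (add_mem hc hxf))).2, (hGOD f P b c hf hb (hle hc)).2]
      apply exists_congr
      intro s
      apply and_congr_right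
      intro hs
      have h2 : s ^ 2 + b * s + (c + x) = s ^ 2 + b * s + c + x := by ring
      have h3 : x ∈ P.1 ^ 2 * f ^ 2 := Ideal.mul_mono_right hle hx
      rw [h2, Ideal.add_mem_iff_left _ h3]
    rw [hF, hF, e1, e2, e3, e4]
    simp only [eD]
  -- local coordinates
  have hmain : mBC f A (P.1 ^ 2) F = mI ⊤ (P.1 ^ 2) (fun b => mI ⊤ (P.1 ^ 2)
      (fun c => F (φ * b) (α * φ ^ 2 * c))) := by
    have h1 := hMIS f P 2 φ (fun b => mI (A * f ^ 2) (P.1 ^ 2) (fun c => F b c)) hf hφ hφ' (by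
      intro x hx y hy
      exact (hMIA (A * f ^ 2) (P.1 ^ 2) hAf hP2).2.2.2.1 _ _ (fun c hc => perB x hx c hc y hy))
    unfold mBC
    rw [h1]
    congr 1
    funext b
    exact hMIS (A * f ^ 2) P 2 (α * φ ^ 2) (fun c => F (φ * b) c) hAf hαφ hαφ' (by
      intro c hc y hy
      exact perC (φ * b) (Ideal.mul_mem_right _ _ hφ) c hc y hy)
  -- the integrand
  have hG : ∀ α₁ : 𝓞 k, (P.1 ∣ A → α₁ ∈ dvi A P.1 ∧ α₁ ∉ P.1 * dvi A P.1) → ∀ b c : 𝓞 k,
      F (φ * b) (α * φ ^ 2 * c) =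
        if ¬ ∃ s, b + 2 * s ∈ P.1 ∧ s ^ 2 + b * s + α * c ∈ P.1 ^ 2 then
          Φ ((Rs P.1).filter (fun s => s ^ 2 + b * s + α * c ∈ P.1)).card
            ((Rs P.1).filter (fun s => α * s ^ 2 + b * s + c ∈ P.1)).card
            ((Rs (P.1 ^ 2)).filter (fun s => α * s ^ 2 + b * s + c ∈ P.1 ^ 2)).card
            (if P.1 ∣ A then ((Rs P.1).filter (fun s => α₁ * s ^ 2 + b * s ∈ P.1)).card else 0)
        else 0 := by
    intro α₁ hα₁ b c
    obtain ⟨n1, n2, n3, n4⟩ := hNRM f A P φ α b c hf hA hφ hφ' hα hα'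
    have m1 := n1 1
    rw [pow_one] at m1
    have m2 := n1 2
    have m4 : (if P.1 ∣ A then nr f P.1 (dvi A P.1) (φ * b) (α * φ ^ 2 * c) else 0) =
        (if P.1 ∣ A then ((Rs P.1).filter (fun s => α₁ * s ^ 2 + b * s ∈ P.1)).card else 0) := by
      by_cases h : P.1 ∣ A
      · rw [if_pos h, if_pos h]
        exact n4 h α₁ (hα₁ h).1 (hα₁ h).2
      · rw [if_neg h, if_neg h]
    rw [hF, n2, m1, m2, m4]
    simp only [n3]
  rw [hmain]
  refine ⟨?_, ?_, ?_⟩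
  · intro hv
    have hnd : ¬ P.1 ∣ A := by
      intro h
      unfold vi at hv
      by_cases h2 : P.1 ^ 2 ∣ A
      · rw [if_pos h2] at hv; exact absurd hv (by norm_num)
      · rw [if_neg h2, if_pos h] at hv; exact absurd hv (by norm_num)
    have hαP : α ∉ P.1 := by
      obtain ⟨I, hI, hI'⟩ := lt_spn P A α hα hα'
      rw [lt_mem_dvd, hI]
      intro h
      rcases hP.dvd_or_dvd h with h1 | h1
      · exact hnd h1
      · exact hI' h1
    refine (hLTO P α 0 (fun x y z _ => Φ x y z 0) (fun b c => F (φ * b) (α * φ ^ 2 * c)) ?_).1 hαP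
      (fun _ _ _ _ => rfl)
    intro b c
    rw [hG 0 (fun h => absurd h hnd) b c, if_neg hnd]
  · intro hv
    have hd : P.1 ∣ A ∧ ¬ P.1 ^ 2 ∣ A := by
      unfold vi at hv
      by_cases h2 : P.1 ^ 2 ∣ A
      · rw [if_pos h2] at hv; exact absurd hv (by norm_num)
      · by_cases h1 : P.1 ∣ A
        · exact ⟨h1, h2⟩
        · rw [if_neg h2, if_neg h1] at hv; exact absurd hv (by norm_num)
    obtain ⟨hA1, hA10, -⟩ := hIDL.2.1 A P.1 hA hd.1
    obtain ⟨α₁, hα₁, hα₁'⟩ := lt_ex P (dvi A P.1) hA10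
    have hn : ¬ P.1 ∣ dvi A P.1 := by
      intro h
      apply hd.2
      rw [← hA1, pow_two]
      exact mul_dvd_mul_left _ h
    have c1 : α ∈ P.1 := (Ideal.dvd_iff_le.mp hd.1) hα
    have c2 : α ∉ P.1 ^ 2 := by
      obtain ⟨I, hI, hI'⟩ := lt_spn P A α hα hα'
      rw [lt_mem_dvd, hI, ← hA1, pow_two, mul_assoc]
      intro h
      have h' := (mul_dvd_mul_iff_left hP0).mp h
      rcases hP.dvd_or_dvd h' with h1 | h1
      · exact hn h1
      · exact hI' h1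
    have c3 : α₁ ∉ P.1 := by
      obtain ⟨I, hI, hI'⟩ := lt_spn P (dvi A P.1) α₁ hα₁ hα₁'
      rw [lt_mem_dvd, hI]
      intro h
      rcases hP.dvd_or_dvd h with h1 | h1
      · exact hn h1
      · exact hI' h1
    refine (hLTO P α α₁ Φ (fun b c => F (φ * b) (α * φ ^ 2 * c)) ?_).2.1 c1 c2 c3
    intro b c
    rw [hG α₁ (fun _ => ⟨hα₁, hα₁'⟩) b c, if_pos hd.1]
  · intro hv
    have hd : P.1 ^ 2 ∣ A := by
      unfold vi at hv
      by_cases h2 : P.1 ^ 2 ∣ A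
      · exact h2
      · by_cases h1 : P.1 ∣ A
        · rw [if_neg h2, if_pos h1] at hv; exact absurd hv (by norm_num)
        · rw [if_neg h2, if_neg h1] at hv; exact absurd hv (by norm_num)
    have hd1 : P.1 ∣ A := (dvd_pow_self P.1 two_ne_zero).trans hd
    obtain ⟨hA1, hA10, -⟩ := hIDL.2.1 A P.1 hA hd1
    obtain ⟨α₁, hα₁, hα₁'⟩ := lt_ex P (dvi A P.1) hA10
    have hn : P.1 ∣ dvi A P.1 := by
      rw [← hA1, pow_two] at hd
      exact (mul_dvd_mul_iff_left hP0).mp hd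
    have c1 : α ∈ P.1 ^ 2 := (Ideal.dvd_iff_le.mp hd) hα
    have c3 : α₁ ∈ P.1 := (Ideal.dvd_iff_le.mp hn) hα₁
    refine (hLTO P α α₁ Φ (fun b c => F (φ * b) (α * φ ^ 2 * c)) ?_).2.2 c1 c3
    intro b c
    rw [hG α₁ (fun _ => ⟨hα₁, hα₁'⟩) b c, if_pos hd1]

end Pool.Agent.H42.NVK
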