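import Pool.Agent.H23.NVK.MTargets

/-!
# The moments of the diagonal element (row M_ETM); adapted from helper20's row ETM of `cna_modules`
-/

set_option autoImplicit false

open scoped Real

namespace Pool.Agent.H42.NVK

open Pool.Agent.H31.CN (GR E lin mo al et Mf E_mul E_zero mo_E)
open Pool.Agent.H23.NVK

/-- a product over primes with summable factors is bounded -/
lemma prod_le_of_sum {α : Type} {k : α → ℝ} (hk : ∀ p, 0 ≤ k p) (hs : Summable k) :
    ∃ C : ℝ, 0 < C ∧ ∀ s : Finset α, ∏ p ∈ s, (1 + k p) ≤ C := by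
  refine ⟨Real.exp (∑' p, k p), Real.exp_pos _, fun s => ?_⟩
  calc ∏ p ∈ s, (1 + k p) ≤ ∏ p ∈ s, Real.exp (k p) :=
        Finset.prod_le_prod (fun p _ => by linarith [hk p])
          fun p _ => by rw [add_comm]; exact Real.add_one_le_exp _
    _ = Real.exp (∑ p ∈ s, k p) := (Real.exp_sum _ _).symm
    _ ≤ Real.exp (∑' p, k p) := Real.exp_le_exp.2 (hs.sum_le_tsum s fun p _ => hk p)

variable {α : Type} {N : α → ℕ}

lemma prod_E (t : Finset α) : ∏ p ∈ t, E (Real.log (N p)) (Real.log (N p)) =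
    E (∑ p ∈ t, Real.log (N p)) (∑ p ∈ t, Real.log (N p)) := by
  classical
  induction t using Finset.induction_on with
  | empty => simp [E_zero]
  | insert a s ha ih =>
    rw [Finset.prod_insert ha, ih, E_mul, Finset.sum_insert ha]

open Classical in
lemma prod_et (s : Finset α) : ∏ p ∈ s, et (N p) = ∑ t ∈ s.powerset,
    ((∏ p ∈ t, (-(1 / (N p : ℝ) ^ 3))) * ∏ p ∈ s \ t, (1 / (N p : ℝ))) •
      E (∑ p ∈ t, Real.log (N p)) (∑ p ∈ t, Real.log (N p)) := by
  have h : ∀ p : α, et (N p) = (-(1 / (N p : ℝ) ^ 3)) • E (Real.log (N p)) (Real.log (N p)) +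
      (1 / (N p : ℝ)) • (1 : GR) := by
    intro p
    unfold et
    rw [neg_smul]
    abel
  rw [Finset.prod_congr rfl fun p _ => h p, Finset.prod_add]
  refine Finset.sum_congr rfl fun t _ => ?_
  rw [Finset.prod_smul, Finset.prod_smul, Finset.prod_const_one, prod_E, smul_mul_smul_comm,
    mul_one]

theorem pf_ETM (hSUM : T_SUM) : T_ETM := by
  classical
  intro α N ρ δ hA
  have hpos : ∀ p : α, (0 : ℝ) < N p := fun p => by
    have := hA.two p
    exact_mod_cast (by omega : 0 < N p)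
  have hs : Summable (fun p : α => (N p : ℝ) ^ (-(3 / 2) : ℝ)) := by
    have h := (hSUM α N ρ δ hA).2.1 (3 / 2) 0 (by norm_num)
    refine h.congr fun p => ?_
    rw [pow_zero, one_mul]
  obtain ⟨C, hC, hprod⟩ := prod_le_of_sum (fun p => (Real.rpow_nonneg (hpos p).le _)) hs
  refine ⟨216 * C, by positivity, fun d => ⟨?_, fun i j hij => ?_⟩⟩
  · rw [prod_et, map_sum]
    unfold gd
    have : ∀ p ∈ d, (1 / (N p : ℝ) - 1 / (N p : ℝ) ^ 3) =
        (-(1 / (N p : ℝ) ^ 3)) + 1 / (N p : ℝ) := fun p _ => by ring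
    rw [Finset.prod_congr rfl this, Finset.prod_add]
    refine Finset.sum_congr rfl fun t _ => ?_
    rw [map_smul, mo_E, pow_zero, mul_one, smul_eq_mul, mul_one]
  · have hdp : (0 : ℝ) < nS N d := hA.nS_pos d
    have hprodd : ∏ p ∈ d, (1 / (N p : ℝ)) = 1 / nS N d := by
      rw [Finset.prod_div_distrib, Finset.prod_const_one]
      congr 1
      unfold nS
      push_cast
      rfl
    rw [prod_et, map_sum]
    refine (Finset.abs_sum_le_sum_abs _ _).trans ?_
    have hterm : ∀ t ∈ d.powerset,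
        |mo i j (((∏ p ∈ t, (-(1 / (N p : ℝ) ^ 3))) * ∏ p ∈ d \ t, (1 / (N p : ℝ))) •
          E (∑ p ∈ t, Real.log (N p)) (∑ p ∈ t, Real.log (N p)))| ≤
        216 / nS N d * ∏ p ∈ t, (N p : ℝ) ^ (-(3 / 2) : ℝ) := by
      intro t ht
      rw [Finset.mem_powerset] at ht
      rw [map_smul, mo_E, ← pow_add, smul_eq_mul, abs_mul, abs_mul, Finset.abs_prod,
        Finset.abs_prod]
      have e1 : ∀ p ∈ t, |-(1 / (N p : ℝ) ^ 3)| = 1 / (N p : ℝ) * (1 / (N p : ℝ) ^ 2) :=
        fun p _ => by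
        have := hpos p
        rw [abs_neg, abs_of_pos (by positivity)]
        field_simp
      have e2 : ∀ p ∈ d \ t, |1 / (N p : ℝ)| = 1 / (N p : ℝ) := fun p _ => by
        have := hpos p
        exact abs_of_pos (by positivity)
      rw [Finset.prod_congr rfl e1, Finset.prod_congr rfl e2, Finset.prod_mul_distrib]
      have e3 : (∏ p ∈ t, (1 / (N p : ℝ))) * (∏ p ∈ t, (1 / (N p : ℝ) ^ 2)) *
          ∏ p ∈ d \ t, (1 / (N p : ℝ)) = 1 / nS N d * ∏ p ∈ t, (1 / (N p : ℝ) ^ 2) := by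
        rw [← hprodd, ← Finset.prod_sdiff ht]
        ring
      rw [e3]
      -- the logarithm
      obtain ⟨g, hg⟩ : ∃ g : ℝ, g = ∏ p ∈ t, (N p : ℝ) := ⟨_, rfl⟩
      have hg1 : 1 ≤ g := by
        rw [hg]
        have := hA.one_le_nS t
        unfold nS at this
        exact_mod_cast this
      have hgl : ∑ p ∈ t, Real.log (N p) = Real.log g := by
        rw [hg, Real.log_prod fun p _ => (hpos p).ne']
      have hl0 : 0 ≤ Real.log g := Real.log_nonneg hg1
      have hlog : Real.log g ≤ 6 * g ^ (1 / 6 : ℝ) := by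
        have := Real.log_le_rpow_div (x := g) (by linarith) (by norm_num : (0 : ℝ) < 1 / 6)
        linarith
      have h6 : 1 ≤ 6 * g ^ (1 / 6 : ℝ) := by
        have := Real.one_le_rpow hg1 (by norm_num : (0 : ℝ) ≤ 1 / 6)
        linarith
      have hpow : |(Real.log g) ^ (i + j)| ≤ 216 * g ^ (1 / 2 : ℝ) := by
        rw [abs_of_nonneg (pow_nonneg hl0 _)]
        calc (Real.log g) ^ (i + j) ≤ (6 * g ^ (1 / 6 : ℝ)) ^ (i + j) :=
              pow_le_pow_left₀ hl0 hlog _
          _ ≤ (6 * g ^ (1 / 6 : ℝ)) ^ 3 := pow_le_pow_right₀ h6 hij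
          _ = 216 * g ^ (1 / 2 : ℝ) := by
              rw [mul_pow, ← Real.rpow_natCast (g ^ (1 / 6 : ℝ)) 3, ← Real.rpow_mul (by linarith)]
              norm_num
      rw [hgl]
      have e4 : g ^ (1 / 2 : ℝ) = ∏ p ∈ t, (N p : ℝ) ^ (1 / 2 : ℝ) := by
        rw [hg]
        exact (Real.finsetProd_rpow _ _ (fun p _ => (hpos p).le) _).symm
      have hq : 0 ≤ 1 / (nS N d : ℝ) * ∏ p ∈ t, (1 / (N p : ℝ) ^ 2) :=
        mul_nonneg (by positivity) (Finset.prod_nonneg fun p _ => by positivity)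
      refine (mul_le_mul_of_nonneg_left hpow hq).trans (le_of_eq ?_)
      rw [e4]
      have e5 : (∏ p ∈ t, (1 / (N p : ℝ) ^ 2)) * ∏ p ∈ t, (N p : ℝ) ^ (1 / 2 : ℝ) =
          ∏ p ∈ t, (N p : ℝ) ^ (-(3 / 2) : ℝ) := by
        rw [← Finset.prod_mul_distrib]
        refine Finset.prod_congr rfl fun p _ => ?_
        have := hpos p
        rw [one_div, ← Real.rpow_natCast, ← Real.rpow_neg this.le, ← Real.rpow_add this]
        norm_num
      rw [← e5]
      ring
    refine (Finset.sum_le_sum hterm).trans ?_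
    rw [← Finset.mul_sum, ← Finset.prod_one_add]
    calc 216 / (nS N d : ℝ) * ∏ p ∈ d, (1 + (N p : ℝ) ^ (-(3 / 2) : ℝ)) ≤
          216 / (nS N d : ℝ) * C := mul_le_mul_of_nonneg_left (hprod d) (by positivity)
      _ = 216 * C / nS N d := by ring

end Pool.Agent.H42.NVK
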